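import Pool.Agent.H914R2.EMain

open CategoryTheory AlgebraicGeometry

universe u v w

namespace Pool.Agent.Results.MP_f569db_ag.DGalois

open Pool.Agent.H914 Pool.Agent.H914.VarClass Pool.Agent.H914.VarClass.Obj

/-- **The standard conjecture D for all products of members of a family of varieties with
endomorphisms, if every Galois-stable multiset of eigenvalues satisfying the relation predicted by
the weights is symmetric.** -/
theorem result {k : Type u} [Field k] {𝒱 : VarClass k} {ops : CycleOps 𝒱}
    (W : WeilCohomology.{u, v} ops) {ι : Type w} (P : ι → EndVar 𝒱) (q : ℕ) (hq : q ≠ 0)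
    (hD : ∀ j, HomEqNum W (P j).X) (hdeg : ∀ j, HasFrobeniusDegree W (P j) q)
    (hss : ∀ j, FrobeniusSemisimple W (P j).X (P j).f)
    (hT : ∀ i j, AlgebraicHoms W (P i) (P j) q)
    (hF : ∀ Q, IsFamilyProduct P Q → FrobeniusOnCycles W Q.X Q.f q)
    (hG : StableSymmetric W.K (familyEigenvalues W P) q)
    (Q : EndVar 𝒱) (hQ : IsFamilyProduct P Q) (Z : 𝒱.Obj) (hZ : Dominates W Q.X Z) :
    HomEqNum W Z :=
  homEqNum_family hq hD hdeg hss hT hF hG hQ hZ

end Pool.Agent.Results.MP_f569db_ag.DGalois
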