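import Pool.Agent.H914R2.DMain

open CategoryTheory AlgebraicGeometry

universe u v

namespace Pool.Agent.Results.MP_f569db_ag.DProducts

open Pool.Agent.H914 Pool.Agent.H914.VarClass Pool.Agent.H914.VarClass.Obj

/-- **The standard conjecture D for all products of varieties whose Frobenius endomorphism is
semisimple on the transcendental cohomology with algebraic commutant (for example: has simple
spectrum there), when an automorphism `τ` over the coefficient field maps every Frobenius
eigenvalue `α` of weight `i` to `q ^ i / α`.** -/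
theorem result {k : Type u} [Field k] {𝒱 : VarClass k} {ops : CycleOps 𝒱}
    (W : WeilCohomology.{u, v} ops) {L : Type v} [Field L] [IsAlgClosed L] [Algebra W.K L]
    (τ : L ≃ₐ[W.K] L) (S : Set 𝒱.Obj)
    (hS : ∀ X ∈ S, ∃ (D : X.Cycles) (f : X ⟶ X) (q : ℕ), X.IsCyc 1 D ∧ 1 < q ∧
      HardLefschetz W X D ∧ LefschetzB W X D ∧ HomEqNum W X ∧ FrobeniusOnCycles W X f q ∧
      ConjugatesFrobenius W X f q τ ∧
      (SimpleSpectrum W X f ∨ (FrobeniusSemisimple W X f ∧ AlgebraicCommutant W X f)))
    (Y Z : 𝒱.Obj) (hY : IsProductOf S Y) (hZ : Dominates W Y Z) : HomEqNum W Z := by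
  refine homEqNum_products τ (𝒮 := S) ?_ hY hZ
  intro X hX
  obtain ⟨D, f, q, hD, hq, hHL, hB, hDX, hF, hc, h⟩ := hS X hX
  refine ⟨D, f, q, hD, hHL, hB, hDX, hq, hF, ?_, ?_, hc⟩
  · rcases h with h | h
    · exact simpleSpectrum_semisimple h
    · exact h.1
  · rcases h with h | h
    · exact simpleSpectrum_commutant h
    · exact algebraicCommutant_iff.1 h.2

end Pool.Agent.Results.MP_f569db_ag.DProducts
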