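import Pool.Agent.H916D.Main

/-!
# Standard conjecture D for Fermat varieties in positive characteristic

The set of the characters of Fermat varieties (of all degrees prime to `p` and all dimensions) whose
eigenlines are spanned by classes of algebraic cycles is stable under `s ↦ -s`. As the eigenlines of
`s` and `-s` are dual to each other, this is the coincidence of homological and numerical
equivalence.
-/

namespace Pool.Agent.Results.MP_f569db_ag.FermatD

open Pool.Agent.H916T Pool.Agent.H916D

theorem result (p : ℕ) (hp : p.Prime) (A : (m : ℕ) → Multiset (ZMod m) → Prop)
    (hA : AlgebraicSystem p A) (m : ℕ) (hpm : p.Coprime m) (s : Multiset (ZMod m)) (hs : A m s) :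
    A m (s.map Neg.neg) :=
  algebraic_neg hp hA m hpm s hs

end Pool.Agent.Results.MP_f569db_ag.FermatD
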