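import Pool.Agent.H914R2.IMain

open CategoryTheory AlgebraicGeometry

universe u v w

namespace Pool.Agent.Results.MP_f569db_ag.InjectivityD

open Pool.Agent.H914 Pool.Agent.H914.VarClass Pool.Agent.H914.VarClass.Obj

/-- **The standard conjecture D for all varieties dominated by products of members of a family is
equivalent to the injectivity conjecture: algebraic classes on these products which are linearly
independent over the rational numbers are linearly independent over the coefficient field.** -/
theorem result {k : Type u} [Field k] {𝒱 : VarClass k} {ops : CycleOps 𝒱}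
    (W : WeilCohomology.{u, v} ops) {ι : Type w} (P : ι → EndVar 𝒱) (q : ℕ) (hq : 2 ≤ q)
    (hD : ∀ j, HomEqNum W (P j).X) (hdeg : ∀ j, HasFrobeniusDegree W (P j) q)
    (hss : ∀ j, FrobeniusSemisimple W (P j).X (P j).f)
    (hT : ∀ j, AlgebraicHoms W (P j) (P j) q)
    (hwt : ∀ x ∈ familyEigenvalues W P, IsWeilNumber q x.1 x.2) :
    (∀ Q, IsFamilyProduct P Q → ∀ Z, Dominates W Q.X Z → HomEqNum W Z) ↔
      ∀ Q, IsFamilyProduct P Q → InjectiveOnCycles W Q.X :=
  homEqNum_iff_injective hq hD hdeg hss hT hwt

end Pool.Agent.Results.MP_f569db_ag.InjectivityD
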